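import Mathlib

set_option autoImplicit false

/-!
# Triangle factors of blow-ups

The graph `G` consisting of two copies of `K₅` with one common vertex has no triangle factor, but
`G(2)` and `G(3)` have triangle factors.
-/

namespace Pool.Agent.Results.MP_285f62_co.TwoK5

open Finset

/-- A triangle factor of `H`: a collection of triangles such that every vertex is in exactly one
of them. -/
def HasTriangleFactor {W : Type} (H : SimpleGraph W) : Prop :=
  ∃ P : Set (Finset W), (∀ s ∈ P, H.IsNClique 3 s) ∧ ∀ v, ∃! s, s ∈ P ∧ v ∈ s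

/-- The blow-up `G(t)`: the vertex `v` is replaced by the independent set `{v} × Fin t`. -/
def blowUp {V : Type} (G : SimpleGraph V) (t : ℕ) : SimpleGraph (V × Fin t) where
  Adj x y := G.Adj x.1 y.1
  symm := ⟨fun _ _ h => h.symm⟩
  loopless := ⟨fun _ h => G.loopless.irrefl _ h⟩

/-- The statement of the question. -/
def Conjecture : Prop :=
  ∀ (V : Type) [Fintype V] (G : SimpleGraph V) (t : ℕ), 0 < t →
    HasTriangleFactor (blowUp G t) → HasTriangleFactor (blowUp G (t + 1)) → HasTriangleFactor G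

/-- Two copies of `K₅` with the common vertex `0`. -/
def G9 : SimpleGraph (Fin 9) where
  Adj i j := i ≠ j ∧ ((i ≤ 4 ∧ j ≤ 4) ∨ ((i = 0 ∨ 5 ≤ i) ∧ (j = 0 ∨ 5 ≤ j)))
  symm := ⟨by decide⟩
  loopless := ⟨by decide⟩

instance : DecidableRel G9.Adj := fun i j => by unfold G9; infer_instance

instance (t : ℕ) : DecidableRel (blowUp G9 t).Adj := fun x y =>
  inferInstanceAs (Decidable (G9.Adj x.1 y.1))

theorem factor_of_index {W : Type} [Fintype W] [DecidableEq W] (H : SimpleGraph W) {m : ℕ}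
    (f : W → Fin m) (h3 : ∀ k, #(univ.filter (fun w => f w = k)) = 3)
    (hadj : ∀ w w', w ≠ w' → f w = f w' → H.Adj w w') : HasTriangleFactor H := by
  refine ⟨{s | ∃ k, s = univ.filter (fun w => f w = k)}, ?_, ?_⟩
  · rintro s ⟨k, rfl⟩
    refine ⟨?_, h3 k⟩
    intro w hw w' hw' hne
    simp only [coe_filter, mem_univ, true_and, Set.mem_ofPred_eq] at hw hw'
    exact hadj w w' hne (hw.trans hw'.symm)
  · intro v
    refine ⟨univ.filter (fun w => f w = f v), ⟨⟨f v, rfl⟩, by simp⟩, ?_⟩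
    rintro s ⟨⟨k, rfl⟩, hv⟩
    simp only [mem_filter, mem_univ, true_and] at hv
    rw [hv]

/-- Index function of a triangle factor of `G(2)`. -/
def f2 (x : Fin 9 × Fin 2) : Fin 6 :=
  (![![2, 5], ![0, 1], ![0, 1], ![0, 2], ![1, 2], ![3, 4], ![3, 4], ![3, 5], ![4, 5]] :
    Fin 9 → Fin 2 → Fin 6) x.1 x.2

theorem factor2 : HasTriangleFactor (blowUp G9 2) := by
  apply factor_of_index _ f2
  · decide +kernel
  · decide +kernel

/-- Index function of a triangle factor of `G(3)`. -/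
def f3 (x : Fin 9 × Fin 3) : Fin 9 :=
  (![![4, 5, 6], ![0, 1, 2], ![0, 1, 3], ![0, 2, 3], ![1, 2, 3], ![4, 5, 7], ![4, 7, 8],
    ![5, 6, 8], ![6, 7, 8]] : Fin 9 → Fin 3 → Fin 9) x.1 x.2

theorem factor3 : HasTriangleFactor (blowUp G9 3) := by
  apply factor_of_index _ f3
  · decide +kernel
  · decide +kernel

theorem no_factor : ¬ HasTriangleFactor G9 := by
  rintro ⟨P, hP, hex⟩
  have key : ∀ c : Fin 9, c ∈ ({1, 2, 3, 4} : Finset (Fin 9)) → ∀ s ∈ P, c ∈ s →
      s ⊆ ({0, 1, 2, 3, 4} : Finset (Fin 9)) := by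
    intro c hc s hs hcs x hx
    by_cases hxc : x = c
    · have h : ∀ x : Fin 9, x ∈ ({1, 2, 3, 4} : Finset (Fin 9)) →
          x ∈ ({0, 1, 2, 3, 4} : Finset (Fin 9)) := by decide
      rw [hxc]
      exact h c hc
    · have hadj : G9.Adj x c := (hP s hs).1 hx hcs hxc
      clear hxc hx hcs hs
      revert hadj hc
      revert x c
      decide
  obtain ⟨s, ⟨hs, h1s⟩, -⟩ := hex 1
  obtain ⟨c, hc, hcs⟩ : ∃ c ∈ ({1, 2, 3, 4} : Finset (Fin 9)), c ∉ s := by
    by_contra hcon
    push Not at hcon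
    have h1 : ({1, 2, 3, 4} : Finset (Fin 9)) ⊆ s := hcon
    have h2 := card_le_card h1
    rw [(hP s hs).2] at h2
    exact absurd h2 (by decide)
  obtain ⟨s', ⟨hs', hcs'⟩, -⟩ := hex c
  have hdis : Disjoint s s' := by
    rw [disjoint_left]
    intro x hx hx'
    obtain ⟨s'', _, huniq⟩ := hex x
    have e1 := huniq s ⟨hs, hx⟩
    have e2 := huniq s' ⟨hs', hx'⟩
    rw [e1, ← e2] at hcs
    exact hcs hcs'
  have hsub : s ∪ s' ⊆ ({0, 1, 2, 3, 4} : Finset (Fin 9)) :=
    union_subset (key 1 (by decide) s hs h1s) (key c hc s' hs' hcs')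
  have h2 := card_le_card hsub
  rw [card_union_of_disjoint hdis, (hP s hs).2, (hP s' hs').2] at h2
  exact absurd h2 (by decide)

/-- **Two consecutive blow-ups with triangle factors do not suffice.** -/
theorem result :
    (∃ G : SimpleGraph (Fin 9), HasTriangleFactor (blowUp G 2) ∧ HasTriangleFactor (blowUp G 3) ∧
      ¬ HasTriangleFactor G) ∧ ¬ Conjecture :=
  ⟨⟨G9, factor2, factor3, no_factor⟩, fun h =>
    no_factor (h (Fin 9) G9 2 (by norm_num) factor2 factor3)⟩

end Pool.Agent.Results.MP_285f62_co.TwoK5
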